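import Pool.Agent.MP_74e98a_nt.H93.Defs
import Pool.Agent.MP_6f2ed2_nt.H1.Assemble

/-! One window of the cubic moment. -/

namespace Pool.Agent.MP_74e98a_nt.H2

open Complex MeasureTheory Pool.Agent.MP_6f2ed2_nt.H1 Pool.Agent.MP_74e98a_nt.H75
  Pool.Agent.MP_74e98a_nt.H93
open scoped ComplexConjugate

theorem alg {Z m δ : ℝ} {A B D : ℂ} (hA : ‖A‖ ≤ m) (hZ : |Z| ≤ m)
    (h0 : ‖(Z : ℂ) - (A + conj A)‖ ≤ δ) (h4 : ‖(Z : ℂ) - (B + conj D)‖ ≤ δ) :
    |Z ^ 3 - (2 * (A * A * B) + 2 * (A * A * conj D) + 4 * (A * A * conj A)).re| ≤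
      7 * δ * m ^ 2 := by
  have e : Z ^ 3 - (2 * (A * A * B) + 2 * (A * A * conj D) + 4 * (A * A * conj A)).re =
      (2 * (A * A * ((Z : ℂ) - (B + conj D))) + 2 * (A * conj A * ((Z : ℂ) - (A + conj A))) +
        ((Z : ℂ) - (A + conj A)) * ((Z : ℂ) + A + conj A) * Z).re := by
    simp only [add_re, mul_re, sub_re, ofReal_re, conj_re, add_im, mul_im, sub_im, ofReal_im,
      conj_im, re_ofNat, im_ofNat]
    ring
  have hm : 0 ≤ m := (norm_nonneg _).trans hA
  have hδ : 0 ≤ δ := (norm_nonneg _).trans h0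
  have hA' : ‖conj A‖ ≤ m := by rwa [Complex.norm_conj]
  have hZ' : ‖(Z : ℂ)‖ ≤ m := by rwa [norm_real, Real.norm_eq_abs]
  have h3 : ‖(Z : ℂ) + A + conj A‖ ≤ m + m + m := norm_add₃_le.trans (by gcongr)
  rw [e]
  refine (abs_re_le_norm _).trans (norm_add₃_le.trans ?_)
  simp only [norm_mul, Complex.norm_ofNat]
  calc _ ≤ 2 * (m * m * δ) + 2 * (m * m * δ) + δ * (m + m + m) * m := by gcongr
    _ = _ := by ring

theorem alg2 {Z m δ : ℝ} {E G v p₀ p₄ q₄ : ℂ} (hE : ‖E‖ = 1) (hv : ‖v‖ = 1)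
    (hEv : ‖E - v‖ ≤ δ) (hG : ‖E - G‖ ≤ δ) (hp₀ : ‖p₀‖ ≤ m) (hp₄ : ‖p₄‖ ≤ m) (hq₄ : ‖q₄‖ ≤ m)
    (hZ : |Z| ≤ m) (h0 : ‖(Z : ℂ) - (E * p₀ + conj (E * p₀))‖ ≤ δ * m)
    (h4 : ‖(Z : ℂ) - (E * p₄ + conj (E * q₄))‖ ≤ δ * m) :
    |Z ^ 3 - (2 * (v ^ 3 * (p₀ * p₀ * p₄)) + 2 * (G * (p₀ * p₀ * conj q₄)) +
      4 * (G * (p₀ * p₀ * conj p₀))).re| ≤ 19 * δ * m ^ 3 := by
  have hm : 0 ≤ m := (norm_nonneg _).trans hp₀
  have hδ : 0 ≤ δ := (norm_nonneg _).trans hG
  have h1 := alg (A := E * p₀) (by rwa [norm_mul, hE, one_mul]) hZ h0 h4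
  have hEE : E * conj E = 1 := by rw [mul_conj, normSq_eq_norm_sq, hE]; simp
  have e : 2 * (E * p₀ * (E * p₀) * (E * p₄)) + 2 * (E * p₀ * (E * p₀) * conj (E * q₄)) +
      4 * (E * p₀ * (E * p₀) * conj (E * p₀)) -
      (2 * (v ^ 3 * (p₀ * p₀ * p₄)) + 2 * (G * (p₀ * p₀ * conj q₄)) +
        4 * (G * (p₀ * p₀ * conj p₀))) =
      2 * ((E - v) * (E * E + E * v + v * v) * (p₀ * p₀ * p₄)) +
        2 * ((E - G) * (p₀ * p₀ * conj q₄)) + 4 * ((E - G) * (p₀ * p₀ * conj p₀)) := by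
    simp only [map_mul]
    linear_combination (2 * E * p₀ * p₀ * conj q₄ + 4 * E * p₀ * p₀ * conj p₀) * hEE
  have h3 : ‖E * E + E * v + v * v‖ ≤ 3 :=
    norm_add₃_le.trans (by simp only [norm_mul, hE, hv]; norm_num)
  have h2 : ‖2 * ((E - v) * (E * E + E * v + v * v) * (p₀ * p₀ * p₄)) +
      2 * ((E - G) * (p₀ * p₀ * conj q₄)) + 4 * ((E - G) * (p₀ * p₀ * conj p₀))‖ ≤
      12 * δ * m ^ 3 := by
    refine norm_add₃_le.trans ?_
    simp only [norm_mul, Complex.norm_ofNat, Complex.norm_conj]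
    calc _ ≤ 2 * (δ * 3 * (m * m * m)) + 2 * (δ * (m * m * m)) + 4 * (δ * (m * m * m)) := by
          gcongr
      _ = _ := by ring
  rw [← e] at h2
  have h5 := (abs_re_le_norm _).trans h2
  rw [sub_re] at h5
  calc _ ≤ _ := abs_sub_le _ _ _
    _ ≤ 7 * (δ * m) * m ^ 2 + 12 * δ * m ^ 3 := add_le_add h1 h5
    _ = _ := by ring

theorem ell_le {T t : ℝ} (ht : 0 < t) (h : t ≤ 4 * T) : ell t ≤ Real.log (Real.sqrt T) := by
  have hpi := Real.pi_gt_three
  rw [ell, Real.log_sqrt (by linarith)]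
  have : t / (2 * Real.pi) ≤ T := by
    rw [div_le_iff₀ (by positivity)]
    nlinarith
  have := Real.log_le_log (by positivity) this
  linarith

theorem le_log_NN {T : ℝ} (hT : 0 < T) : Real.log (Real.sqrt T) + 11 ≤ Real.log (NN T) := by
  have h : Real.exp 11 * Real.sqrt T ≤ NN T := Nat.le_ceil _
  have := Real.log_le_log (by positivity) h
  rwa [Real.log_mul (by positivity) (by positivity), Real.log_exp, add_comm] at this

theorem NN_le {T : ℝ} (hT : 1 ≤ T) : (NN T : ℝ) ≤ 2 * Real.exp 11 * Real.sqrt T := by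
  have h1 : 1 ≤ Real.sqrt T := Real.one_le_sqrt.2 hT
  have h2 : 1 ≤ Real.exp 11 := Real.one_le_exp (by norm_num)
  have h3 : (NN T : ℝ) < Real.exp 11 * Real.sqrt T + 1 := Nat.ceil_lt_add_one (by positivity)
  nlinarith

theorem ell_sub {T t w : ℝ} (hT : 0 < T) (ht : T / 2 ≤ t) (hw : T / 2 ≤ w) :
    |ell t - ell w| ≤ |t - w| / T := by
  have key : ∀ a b : ℝ, T / 2 ≤ a → T / 2 ≤ b → ell a - ell b ≤ |a - b| / T := fun a b ha hb => by
    have ha0 : 0 < a := by linarith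
    have hb0 : 0 < b := by linarith
    have e : ell a - ell b = Real.log (a / b) / 2 := by
      rw [ell, ell, Real.log_div ha0.ne' (by positivity), Real.log_div hb0.ne' (by positivity),
        Real.log_div ha0.ne' hb0.ne']
      ring
    have h1 := Real.log_le_sub_one_of_pos (div_pos ha0 hb0)
    have h2 : a / b - 1 ≤ |a - b| / (T / 2) := by
      rw [div_sub_one hb0.ne']
      calc (a - b) / b ≤ |a - b| / b := by gcongr; exact le_abs_self _
        _ ≤ _ := by gcongr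
    have h3 : |a - b| / (T / 2) = 2 * (|a - b| / T) := by field_simp
    linarith
  rw [abs_le]
  have := key w t hw ht
  rw [abs_sub_comm] at this
  exact ⟨by linarith, key t w ht hw⟩

theorem rpow_le_eta {T t H : ℝ} (hT : 4 ≤ T) (ht : T / 2 ≤ t) (hH : T ^ (7 / 8 : ℝ) ≤ H) :
    t ^ (-(1 / 4 : ℝ)) ≤ H / T := by
  have hT0 : 0 < T := by linarith
  have h1 : T ^ (1 / 2 : ℝ) ≤ t := by
    rw [← Real.sqrt_eq_rpow]
    refine le_trans ?_ ht
    rw [Real.sqrt_le_left (by linarith)]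
    nlinarith
  calc t ^ (-(1 / 4 : ℝ)) ≤ (T ^ (1 / 2 : ℝ)) ^ (-(1 / 4 : ℝ)) :=
        Real.rpow_le_rpow_of_nonpos (by positivity) h1 (by norm_num)
    _ = T ^ (7 / 8 : ℝ) / T := by
        rw [← Real.rpow_mul hT0.le, ← Real.rpow_sub_one hT0.ne']
        norm_num
    _ ≤ _ := by gcongr

theorem continuousOn_th0 {a b : ℝ} (ha : 0 < a) : ContinuousOn th0 (Set.Icc a b) := by
  unfold th0 ell
  refine (continuousOn_id.mul (ContinuousOn.div_const (ContinuousOn.log (by fun_prop)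
    fun x hx => ?_) _)).sub (by fun_prop)
  have : 0 < x := ha.trans_le hx.1
  positivity

theorem win {φ : ℝ → ℝ} (hφ : Step φ) (hA : AfeStmt φ) (hPh : PhaseStmt) (hP : PStmt)
    (hC : CubeStmt) (hF : FubStmt) : WinStmt := by
  obtain ⟨CA, tA, hA⟩ := hA
  obtain ⟨hE, hMf, CP, tP, hPh⟩ := hPh
  obtain ⟨Λ, hΛ, hP⟩ := hP φ hφ
  obtain ⟨CC, hC⟩ := hC
  obtain ⟨CF, κ, hκ, hF⟩ := hF φ hφ
  obtain ⟨c₁, hc₁⟩ : ∃ c₁ : ℝ, c₁ = 2 * Λ + |CA| := ⟨_, rfl⟩
  obtain ⟨c₂, hc₂⟩ : ∃ c₂ : ℝ, c₂ = 2 * |CP| + 3 := ⟨_, rfl⟩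
  obtain ⟨c₃, hc₃⟩ : ∃ c₃ : ℝ, c₃ = 2 * (|CC| * (2 * Real.exp 11) ^ (3 / 2 : ℝ)) + 12 * |CF| :=
    ⟨_, rfl⟩
  have hc₁0 : 0 ≤ c₁ := by rw [hc₁]; positivity
  have hc₂0 : 1 ≤ c₂ := by rw [hc₂]; linarith [abs_nonneg CP]
  have hc₃0 : 0 ≤ c₃ := by rw [hc₃]; positivity
  have hc₄0 : 0 ≤ 19 * c₂ * c₁ ^ 3 := by positivity
  refine ⟨c₁ + 19 * c₂ * c₁ ^ 3 + c₃, min (κ / 2) (1 / 8), max 10 (max (2 * tA) (2 * tP)),
    lt_min (by linarith) (by norm_num), fun T hT => ?_⟩
  have hT1 : 10 ≤ T := (le_max_left _ _).trans hT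
  have hT2 : 2 * tA ≤ T := ((le_max_left _ _).trans (le_max_right _ _)).trans hT
  have hT3 : 2 * tP ≤ T := ((le_max_right _ _).trans (le_max_right _ _)).trans hT
  have hT0 : 0 < T := by linarith
  have hlog := le_log_NN hT0
  have afe : ∀ t L : ℝ, T / 2 ≤ t → t ≤ 4 * T → |L| ≤ 4 →
      ‖(hardyZ t : ℂ) - (hardyPhase t * P φ (ell t - L) (NN T) t +
        conj (hardyPhase t * P φ (ell t + L) (NN T) t))‖ ≤ |CA| * t ^ (-(1 / 4 : ℝ)) :=
    fun t L h1 h2 h3 => by
      have ht : 0 < t := by linarith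
      refine (hA t L (NN T) (by linarith) h3 (by linarith [ell_le ht h2])).trans ?_
      gcongr
      exact le_abs_self _
  have hZ : ∀ t : ℝ, T / 2 ≤ t → t ≤ 4 * T → |hardyZ t| ≤ c₁ * (1 + Maj (NN T) t) :=
    fun t h1 h2 => by
      have h3 := afe t 0 h1 h2 (by simp)
      have h4 : t ^ (-(1 / 4 : ℝ)) ≤ 1 :=
        Real.rpow_le_one_of_one_le_of_nonpos (by linarith) (by norm_num)
      have h5 := norm_le_insert' (hardyZ t : ℂ) (hardyPhase t * P φ (ell t - 0) (NN T) t +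
        conj (hardyPhase t * P φ (ell t + 0) (NN T) t))
      have h6 := norm_add_le (hardyPhase t * P φ (ell t - 0) (NN T) t)
        (conj (hardyPhase t * P φ (ell t + 0) (NN T) t))
      rw [Complex.norm_conj, norm_mul, norm_mul, hE, one_mul, one_mul] at h6
      rw [norm_real, Real.norm_eq_abs] at h5
      have h7 := (hP (ell t - 0) 0 (NN T) t).1
      have h8 := (hP (ell t + 0) 0 (NN T) t).1
      have h9 := Maj_nonneg (NN T) t
      have h10 : |CA| * t ^ (-(1 / 4 : ℝ)) ≤ |CA| * 1 := by gcongr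
      rw [hc₁]
      nlinarith [abs_nonneg CA, mul_nonneg (abs_nonneg CA) h9]
  refine ⟨fun t h1 h2 => (hZ t h1 h2).trans ?_, fun w H hw1 hw2 hH1 hH2 => ?_⟩
  · have := Maj_nonneg (NN T) t
    gcongr
    linarith
  have hH0 : 0 < H := lt_of_lt_of_le (by positivity) hH1
  have hK2 : Real.sqrt T ^ 2 = T := Real.sq_sqrt hT0.le
  have hw0 : 0 < w := by linarith
  have hellw := ell_le hw0 (by linarith : w ≤ 4 * T)
  set N := NN T with hN
  set F : ℂ := hardyPhase w * cexp (-(I * th0 w)) with hFdef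
  have hexp : ∀ x : ℝ, ‖cexp (I * x)‖ = 1 := fun x => by
    rw [mul_comm]; exact norm_exp_ofReal_mul_I x
  have hexp' : ∀ x : ℝ, ‖cexp (-(I * x))‖ = 1 := fun x => by
    rw [Complex.exp_neg, norm_inv, hexp, inv_one]
  have hF1 : ‖F‖ = 1 := by rw [hFdef, norm_mul, hE, hexp', one_mul]
  let X₁ : ℝ → ℂ := fun t => (tri w H t : ℂ) * (cexp (3 * (I * th0 t)) *
    (P φ (ell w) N t * P φ (ell w) N t * P φ (ell w - 4) N t))
  let X₂ : ℝ → ℝ → ℂ := fun L t => (tri w H t : ℂ) *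
    (Mf t * (Real.exp (-(t - w) / (2 * Real.sqrt T ^ 2)) : ℝ) *
      (P φ (ell w) N t * P φ (ell w) N t * conj (P φ L N t)))
  have pt : ∀ t ∈ Set.Icc (w - H) (w + H), |tri w H t * hardyZ t ^ 3 -
      (2 * (F ^ 3 * X₁ t) + 2 * X₂ (ell w + 4) t + 4 * X₂ (ell w) t).re| ≤
      19 * c₂ * c₁ ^ 3 * (H / T) * (1 + Maj N t) ^ 3 := by
    intro t ht
    have h1 : T / 2 ≤ t := by linarith [ht.1]
    have h2 : t ≤ 4 * T := by linarith [ht.2]
    have ht0 : 0 < t := by linarith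
    have htw : |t - w| ≤ H := abs_le.2 ⟨by linarith [ht.1], by linarith [ht.2]⟩
    have htw' : |t - w| / T ≤ H / T := by gcongr
    have hη : H / T ≤ 1 / 10 := by rw [div_le_iff₀ hT0]; linarith
    have hη0 : 0 < H / T := by positivity
    have hM := Maj_nonneg N t
    have hr := rpow_le_eta (by linarith) h1 hH1
    have hell := (ell_sub hT0 h1 (by linarith : T / 2 ≤ w)).trans htw'
    have hp : ∀ l, ‖P φ l N t‖ ≤ c₁ * (1 + Maj N t) := fun l => by
      have := (hP l 0 N t).1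
      rw [hc₁]
      nlinarith [abs_nonneg CA, mul_nonneg (abs_nonneg CA) hM, mul_nonneg hΛ hM]
    have hfr : ∀ L : ℝ, |L| ≤ 4 → ‖(hardyZ t : ℂ) - (hardyPhase t * P φ (ell w - L) N t +
        conj (hardyPhase t * P φ (ell w + L) N t))‖ ≤ c₂ * (H / T) * (c₁ * (1 + Maj N t)) := by
      intro L hL
      have h3 := afe t L h1 h2 hL
      have h4 := (hP (ell t - L) (ell w - L) N t).2
      have h5 := (hP (ell t + L) (ell w + L) N t).2
      rw [sub_sub_sub_cancel_right] at h4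
      rw [add_sub_add_right_eq_sub] at h5
      have e : (hardyZ t : ℂ) - (hardyPhase t * P φ (ell w - L) N t +
          conj (hardyPhase t * P φ (ell w + L) N t)) =
          ((hardyZ t : ℂ) - (hardyPhase t * P φ (ell t - L) N t +
            conj (hardyPhase t * P φ (ell t + L) N t))) +
          hardyPhase t * (P φ (ell t - L) N t - P φ (ell w - L) N t) +
          conj (hardyPhase t * (P φ (ell t + L) N t - P φ (ell w + L) N t)) := by
        simp only [map_mul, map_sub]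
        ring
      rw [e]
      refine norm_add₃_le.trans ?_
      rw [Complex.norm_conj, norm_mul, norm_mul, hE, one_mul, one_mul]
      have h6 : |CA| * t ^ (-(1 / 4 : ℝ)) ≤ |CA| * (H / T) := by gcongr
      have h7 : Λ * |ell t - ell w| * Maj N t ≤ Λ * (H / T) * Maj N t := by gcongr
      have h8 : 1 * (H / T) * (c₁ * (1 + Maj N t)) ≤ c₂ * (H / T) * (c₁ * (1 + Maj N t)) := by
        gcongr
      refine le_trans ?_ h8
      rw [hc₁]
      nlinarith [mul_nonneg (mul_nonneg (abs_nonneg CA) hη0.le) hM, mul_nonneg hΛ hη0.le]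
    have hv : ‖hardyPhase t - F * cexp (I * th0 t)‖ ≤ c₂ * (H / T) := by
      have h3 := hPh (T / 2) t w (by linarith) h1 (by linarith)
      have e : hardyPhase t - F * cexp (I * th0 t) =
          (hardyPhase t * cexp (-(I * th0 t)) - F) * cexp (I * th0 t) := by
        rw [sub_mul, mul_assoc (hardyPhase t), ← Complex.exp_add]
        simp
      rw [e, norm_mul, hexp, mul_one]
      refine h3.trans ?_
      have h4 : CP * |t - w| / (T / 2) = 2 * CP * (|t - w| / T) := by field_simp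
      rw [h4]
      calc 2 * CP * (|t - w| / T) ≤ 2 * |CP| * (|t - w| / T) := by gcongr; exact le_abs_self _
        _ ≤ c₂ * (H / T) := by gcongr; linarith
    have hG : ‖hardyPhase t - Mf t * (Real.exp (-(t - w) / (2 * Real.sqrt T ^ 2)) : ℝ)‖ ≤
        c₂ * (H / T) := by
      have h3 : |-(t - w) / (2 * Real.sqrt T ^ 2)| ≤ H / T / 2 := by
        rw [hK2, abs_div, abs_neg, abs_of_pos (by positivity : 0 < 2 * T), div_div, mul_comm T]
        gcongr
      have h4 := Real.abs_exp_sub_one_le (h3.trans (by linarith))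
      generalize Real.exp (-(t - w) / (2 * Real.sqrt T ^ 2)) = g at h4
      have h5 : |g| ≤ 2 := by
        rw [abs_le] at h4 ⊢
        constructor <;> linarith [h4.1, h4.2]
      have h6 : 1 / t ≤ H / T := by
        refine le_trans ?_ hr
        rw [one_div, ← Real.rpow_neg_one]
        exact Real.rpow_le_rpow_of_exponent_le (by linarith) (by norm_num)
      have e : hardyPhase t - Mf t * (g : ℝ) =
          -(hardyPhase t * ((g - 1 : ℝ) : ℂ)) - (Mf t - hardyPhase t) * (g : ℝ) := by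
        push_cast
        ring
      rw [e]
      refine (norm_sub_le _ _).trans ?_
      rw [norm_neg, norm_mul, norm_mul, hE, one_mul, norm_real, norm_real, Real.norm_eq_abs,
        Real.norm_eq_abs]
      have h7 : ‖Mf t - hardyPhase t‖ * |g| ≤ H / T * 2 :=
        mul_le_mul ((hMf t (by linarith)).trans h6) h5 (abs_nonneg _) hη0.le
      rw [hc₂]
      nlinarith [mul_nonneg (abs_nonneg CP) hη0.le]
    have h0 := hfr 0 (by simp)
    rw [sub_zero, add_zero] at h0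
    have h9 := alg2 (hE t) (by rw [norm_mul, hF1, hexp, one_mul]) hv hG (hp _) (hp _) (hp _)
      (hZ t h1 h2) h0 (hfr 4 (by norm_num))
    have e : (2 * (F ^ 3 * X₁ t) + 2 * X₂ (ell w + 4) t + 4 * X₂ (ell w) t) = (tri w H t : ℂ) *
        (2 * ((F * cexp (I * th0 t)) ^ 3 *
          (P φ (ell w) N t * P φ (ell w) N t * P φ (ell w - 4) N t)) +
        2 * (Mf t * (Real.exp (-(t - w) / (2 * Real.sqrt T ^ 2)) : ℝ) *
          (P φ (ell w) N t * P φ (ell w) N t * conj (P φ (ell w + 4) N t))) +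
        4 * (Mf t * (Real.exp (-(t - w) / (2 * Real.sqrt T ^ 2)) : ℝ) *
          (P φ (ell w) N t * P φ (ell w) N t * conj (P φ (ell w) N t)))) := by
      have : cexp (3 * (I * th0 t)) = cexp (I * th0 t) ^ 3 := by
        rw [← Complex.exp_nat_mul]; norm_num
      simp only [X₁, X₂, this]
      ring
    rw [e, re_ofReal_mul, ← mul_sub, abs_mul, abs_of_nonneg (tri_nonneg _ _ _)]
    calc _ ≤ 1 * (19 * (c₂ * (H / T)) * (c₁ * (1 + Maj N t)) ^ 3) :=
          mul_le_mul (tri_le_one _ _ hH0.le) h9 (abs_nonneg _) zero_le_one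
      _ = _ := by ring
  have hab : w - H ≤ w + H := by linarith
  have hcP : ∀ l, Continuous (P φ l N) := fun l => continuous_P φ l N
  have hctri : Continuous fun t => (tri w H t : ℂ) := continuous_ofReal.comp (continuous_tri w H)
  have i₁ : IntervalIntegrable X₁ volume (w - H) (w + H) := by
    refine ContinuousOn.intervalIntegrable_of_Icc hab (hctri.continuousOn.mul
      (ContinuousOn.mul ?_ (((hcP _).mul (hcP _)).mul (hcP _)).continuousOn))
    exact (continuousOn_const.mul (continuousOn_const.mul (continuous_ofReal.comp_continuousOn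
      (continuousOn_th0 (by linarith))))).cexp
  have i₂ : ∀ L, IntervalIntegrable (X₂ L) volume (w - H) (w + H) := fun L =>
    (hctri.mul ((continuous_Mf.mul (by fun_prop)).mul
      (((hcP _).mul (hcP _)).mul (continuous_conj.comp (hcP _))))).intervalIntegrable _ _
  have i₃ : IntervalIntegrable (fun t => 2 * (F ^ 3 * X₁ t) + 2 * X₂ (ell w + 4) t +
      4 * X₂ (ell w) t) volume (w - H) (w + H) :=
    (((i₁.const_mul _).const_mul _).add ((i₂ _).const_mul _)).add ((i₂ _).const_mul _)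
  have i₄ : IntervalIntegrable (fun t => tri w H t * hardyZ t ^ 3) volume (w - H) (w + H) :=
    ((continuous_tri w H).mul (continuous_hardyZ.pow 3)).intervalIntegrable _ _
  have i₅ : IntervalIntegrable (fun t => (2 * (F ^ 3 * X₁ t) + 2 * X₂ (ell w + 4) t +
      4 * X₂ (ell w) t).re) volume (w - H) (w + H) := ⟨i₃.1.re, i₃.2.re⟩
  have b₁ : |(∫ t in (w - H)..(w + H), tri w H t * hardyZ t ^ 3) - ∫ t in (w - H)..(w + H),
      (2 * (F ^ 3 * X₁ t) + 2 * X₂ (ell w + 4) t + 4 * X₂ (ell w) t).re| ≤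
      19 * c₂ * c₁ ^ 3 * (H / T) * ∫ t in (w - H)..(w + H), (1 + Maj N t) ^ 3 := by
    rw [← intervalIntegral.integral_sub i₄ i₅, ← intervalIntegral.integral_const_mul,
      ← Real.norm_eq_abs]
    refine intervalIntegral.norm_integral_le_of_norm_le hab
      (Filter.Eventually.of_forall fun t ht => pt t (Set.Ioc_subset_Icc_self ht)) ?_
    exact (continuous_const.mul ((continuous_const.add (continuous_Maj N)).pow 3)).intervalIntegrable
      _ _
  have hpow : ∀ a : ℝ, a ≤ 1 - min (κ / 2) (1 / 8) → T ^ a ≤ T ^ (1 - min (κ / 2) (1 / 8)) :=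
    fun a ha => Real.rpow_le_rpow_of_exponent_le (by linarith) ha
  have hm1 := min_le_left (κ / 2) (1 / 8)
  have hm2 := min_le_right (κ / 2) (1 / 8)
  have hsq : ∀ a : ℝ, Real.sqrt T ^ a = T ^ (a / 2) := fun a => by
    rw [Real.sqrt_eq_rpow, ← Real.rpow_mul hT0.le]
    congr 1
    ring
  have b₂ : ‖∫ t in (w - H)..(w + H), X₁ t‖ ≤
      |CC| * (2 * Real.exp 11) ^ (3 / 2 : ℝ) * T ^ (1 - min (κ / 2) (1 / 8)) := by
    refine (hC φ hφ w H _ _ _ N (by linarith) hH0 (by linarith) (by linarith)).trans ?_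
    calc CC * (N : ℝ) ^ (3 / 2 : ℝ) ≤ |CC| * (2 * Real.exp 11 * Real.sqrt T) ^ (3 / 2 : ℝ) := by
          gcongr
          · exact le_abs_self _
          · exact NN_le (by linarith)
      _ = |CC| * (2 * Real.exp 11) ^ (3 / 2 : ℝ) * T ^ ((3 / 2 : ℝ) / 2) := by
          rw [Real.mul_rpow (by positivity) (by positivity), hsq, mul_assoc]
      _ ≤ _ := by
          gcongr
          · linarith
          · linarith
  have b₃ : ∀ L, L ≤ ell w + 4 → ‖∫ t in (w - H)..(w + H), X₂ L t‖ ≤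
      2 * |CF| * T ^ (1 - min (κ / 2) (1 / 8)) := fun L hL => by
    have hK : 2 ≤ Real.sqrt T := Real.le_sqrt_of_sq_le (by linarith)
    refine (hF (Real.sqrt T) w H _ _ _ N hK hH0 hw0.le (by linarith) (by linarith) (by linarith)
      (by linarith) (Nat.le_ceil _) (NN_le (by linarith))).trans ?_
    rw [hsq, hsq]
    have h1 := hpow ((2 - κ) / 2) (by linarith)
    have h2 : T ^ ((7 / 2 : ℝ) / 2) / H ≤ T ^ (1 - min (κ / 2) (1 / 8)) := by
      refine le_trans ?_ (hpow (7 / 8) (by linarith))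
      rw [div_le_iff₀ hH0]
      calc T ^ ((7 / 2 : ℝ) / 2) = T ^ (7 / 8 : ℝ) * T ^ (7 / 8 : ℝ) := by
            rw [← Real.rpow_add hT0]; norm_num
        _ ≤ _ := by gcongr
    calc _ ≤ |CF| * (T ^ (1 - min (κ / 2) (1 / 8)) + T ^ (1 - min (κ / 2) (1 / 8))) := by
          gcongr
          exact le_abs_self _
      _ = _ := by ring
  have b₄ : |∫ t in (w - H)..(w + H),
      (2 * (F ^ 3 * X₁ t) + 2 * X₂ (ell w + 4) t + 4 * X₂ (ell w) t).re| ≤
      c₃ * T ^ (1 - min (κ / 2) (1 / 8)) := by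
    have e := (reCLM.intervalIntegral_comp_comm i₃)
    simp only [reCLM_apply] at e
    rw [e, intervalIntegral.integral_add (((i₁.const_mul _).const_mul _).add ((i₂ _).const_mul _))
      ((i₂ _).const_mul _), intervalIntegral.integral_add ((i₁.const_mul _).const_mul _)
      ((i₂ _).const_mul _)]
    simp only [intervalIntegral.integral_const_mul]
    refine (abs_re_le_norm _).trans (norm_add₃_le.trans ?_)
    simp only [norm_mul, Complex.norm_ofNat, norm_pow, hF1, one_pow, one_mul]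
    have h1 := b₃ _ le_rfl
    have h2 := b₃ (ell w) (by linarith)
    rw [hc₃]
    linarith
  have hI : 0 ≤ ∫ t in (w - H)..(w + H), (1 + Maj N t) ^ 3 :=
    intervalIntegral.integral_nonneg hab fun t _ => by have := Maj_nonneg N t; positivity
  have hTp : 0 ≤ T ^ (1 - min (κ / 2) (1 / 8)) := by positivity
  calc _ ≤ _ := abs_sub_abs_le_abs_sub _ _ |> sub_le_iff_le_add.1
    _ ≤ _ := add_le_add b₁ b₄
    _ ≤ (c₁ + 19 * c₂ * c₁ ^ 3 + c₃) * (H / T) * (∫ t in (w - H)..(w + H), (1 + Maj N t) ^ 3) +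
        (c₁ + 19 * c₂ * c₁ ^ 3 + c₃) * T ^ (1 - min (κ / 2) (1 / 8)) := by
        gcongr <;> linarith
    _ = _ := add_comm _ _

end Pool.Agent.MP_74e98a_nt.H2
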